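import Mathlib
import Pool.Agent.H29.Mack3

namespace Pool.Agent.Results.MP_44d3b9_gt.NotMackey

/-- `χ` is a character of `(ℤ, τ)`: a continuous homomorphism to `ℝ / ℤ`. -/
def IsChar (τ : TopologicalSpace ℤ) (χ : ℤ →+ AddCircle (1 : ℝ)) : Prop :=
  @Continuous _ _ τ _ χ

/-- Quasi-convex subsets of `(ℤ, τ)`; `‖t‖ ≤ 1 / 4` says that `t` lies in `𝕋₊`. -/
def QC (τ : TopologicalSpace ℤ) (A : Set ℤ) : Prop :=
  ∀ x ∉ A, ∃ χ, IsChar τ χ ∧ (∀ a ∈ A, ‖χ a‖ ≤ 1 / 4) ∧ ¬ ‖χ x‖ ≤ 1 / 4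

/-- Locally quasi-convex topologies. -/
def LQC (τ : TopologicalSpace ℤ) : Prop :=
  ∀ U ∈ @nhds ℤ τ 0, ∃ A ∈ @nhds ℤ τ 0, A ⊆ U ∧ QC τ A

/-- Precompact topologies. -/
def Precompact (τ : TopologicalSpace ℤ) : Prop :=
  ∀ U ∈ @nhds ℤ τ 0, ∃ F : Finset ℤ, ∀ x, ∃ f ∈ F, ∃ u ∈ U, x = f + u

/-- Mackey topologies: locally quasi-convex and finer than every compatible Hausdorff locally
quasi-convex group topology (`τ ≤ σ` means that `τ` is finer than `σ`). -/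
def Mackey (τ : TopologicalSpace ℤ) : Prop :=
  LQC τ ∧ ∀ σ : TopologicalSpace ℤ, @IsTopologicalAddGroup ℤ σ _ → @T2Space ℤ σ → LQC σ →
    (∀ χ, IsChar σ χ ↔ IsChar τ χ) → τ ≤ σ

theorem result : ¬ ∃ τ : TopologicalSpace ℤ, @IsTopologicalAddGroup ℤ τ _ ∧
    @TopologicalSpace.MetrizableSpace ℤ τ ∧ Precompact τ ∧ Mackey τ ∧
    ∀ K : AddSubgroup ℤ, @IsOpen ℤ τ K → K = ⊤ := by
  rintro ⟨τ, h1, h2, h3, ⟨h4, h5⟩, -⟩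
  obtain ⟨σ, a1, a2, a3, a4, a5⟩ := Pool.Agent.H29.Mack3.main τ h1 h2 h3 h4
  exact a5 (h5 σ a1 a2 a3 a4)

end Pool.Agent.Results.MP_44d3b9_gt.NotMackey
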